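import Mathlib

open MeasureTheory Set Filter Topology Pointwise
open scoped InnerProductSpace

namespace Pool.Agent.H.MP_a2f955_an

variable {H : Type*} [NormedAddCommGroup H] [InnerProductSpace ℂ H]

/-- a (possibly discontinuous) one-parameter unitary group -/
structure IsRep (U : ℝ → H →L[ℂ] H) : Prop where
  zero : ∀ x, U 0 x = x
  add : ∀ a b x, U (a + b) x = U a (U b x)
  inn : ∀ a x y, ⟪U a x, U a y⟫_ℂ = ⟪x, y⟫_ℂ

variable {U : ℝ → H →L[ℂ] H}

lemma IsRep.norm (h : IsRep U) (a : ℝ) (x : H) : ‖U a x‖ = ‖x‖ := by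
  rw [@norm_eq_sqrt_re_inner ℂ, h.inn, ← @norm_eq_sqrt_re_inner ℂ]

lemma IsRep.move (h : IsRep U) (a : ℝ) (x y : H) : ⟪U a x, y⟫_ℂ = ⟪x, U (-a) y⟫_ℂ := by
  rw [← h.inn a x, ← h.add, add_neg_cancel, h.zero]

/-- continuous vectors -/
def Hc (U : ℝ → H →L[ℂ] H) : Submodule ℂ H where
  carrier := {v | Continuous fun a => U a v}
  add_mem' {x y} hx hy := by
    simp only [mem_ofPred_eq, map_add] at *
    exact hx.add hy
  zero_mem' := by simp only [mem_ofPred_eq, map_zero]; exact continuous_const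
  smul_mem' c x hx := by
    simp only [mem_ofPred_eq, map_smul] at *
    exact hx.const_smul c

lemma Hc_closed (h : IsRep U) : IsClosed (Hc U : Set H) := by
  refine isClosed_of_closure_subset fun v hv => ?_
  refine continuous_of_uniform_approx_of_continuous fun u hu => ?_
  obtain ⟨ε, hε, hsub⟩ := Metric.mem_uniformity_dist.1 hu
  obtain ⟨w, hw, hd⟩ := Metric.mem_closure_iff.1 hv ε hε
  refine ⟨fun a => U a w, hw, fun a => hsub ?_⟩
  rwa [dist_eq_norm, ← map_sub, h.norm, ← dist_eq_norm]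

lemma Hc_inv (h : IsRep U) (a : ℝ) {v : H} (hv : v ∈ Hc U) : U a v ∈ Hc U := by
  have : Continuous fun b => U (b + a) v := Continuous.comp (g := fun a => U a v) hv (by fun_prop)
  simp only [h.add] at this
  exact this

lemma orth_inv (h : IsRep U) (a : ℝ) {v : H} (hv : v ∈ (Hc U)ᗮ) : U a v ∈ (Hc U)ᗮ := by
  rw [Submodule.mem_orthogonal'] at *
  intro w hw
  rw [h.move]
  exact hv _ (Hc_inv h _ hw)

lemma mem_Hc (h : IsRep U) {v : H} (hv : Tendsto (fun a => ‖U a v - v‖) (𝓝 0) (𝓝 0)) :
    v ∈ Hc U := by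
  refine continuous_iff_continuousAt.2 fun b => tendsto_iff_norm_sub_tendsto_zero.2 ?_
  have h1 : Tendsto (fun a : ℝ => a - b) (𝓝 b) (𝓝 0) := by
    simpa using (by fun_prop : Continuous fun a : ℝ => a - b).tendsto b
  refine (hv.comp h1).congr fun a => ?_
  simp only [Function.comp]
  rw [← h.norm b, map_sub, ← h.add, add_sub_cancel]

lemma exists_min [CompleteSpace H] {K : Set H} (hne : K.Nonempty) (hc : IsClosed K)
    (hK : Convex ℝ K) : ∃ v ∈ K, ‖v‖ = Metric.infDist 0 K := by
  let _ : InnerProductSpace ℝ H := InnerProductSpace.complexToReal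
  obtain ⟨v, hv, hvn⟩ := exists_norm_eq_iInf_of_complete_convex hne hc.isComplete hK 0
  refine ⟨v, hv, ?_⟩
  rw [zero_sub, norm_neg] at hvn
  rw [hvn]
  simp only [Metric.infDist_eq_iInf, dist_eq_norm]

lemma zero_mem_hull [CompleteSpace H] (h : IsRep U) {ξ : H} (hξ : ξ ∈ (Hc U)ᗮ) {r : ℝ}
    (hr : 0 < r) : (0 : H) ∈ closure (convexHull ℝ ((fun a => U a ξ) '' Metric.ball 0 r)) := by
  let C : ℝ → Set H := fun s =>
    closure (convexHull ℝ ((fun a => U a ξ) '' Metric.closedBall 0 (max s 0)))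
  have hne : ∀ s, (C s).Nonempty := fun s =>
    ⟨U 0 ξ, subset_closure (subset_convexHull _ _ ⟨0, by simp, rfl⟩)⟩
  have hmono : Monotone C := fun s t hst =>
    closure_mono (convexHull_mono (image_mono (Metric.closedBall_subset_closedBall
      (max_le_max_right 0 hst))))
  have hconv : ∀ s, Convex ℝ (C s) := fun s => (convex_convexHull ℝ _).closure
  let a : ℝ → ℝ := fun s => Metric.infDist 0 (C s)
  have hanti : Antitone a := fun s t hst => Metric.infDist_le_infDist_of_subset (hmono hst) (hne s)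
  obtain ⟨s, ⟨hs0, hsr⟩, hs⟩ : ∃ s ∈ Ioo 0 r, ContinuousAt a s := by
    by_contra hcon
    push Not at hcon
    have : (Ioo 0 r).Countable := hanti.countable_not_continuousAt.mono hcon
    have h2 := this.measure_zero volume
    simp only [Real.volume_Ioo, sub_zero, ENNReal.ofReal_eq_zero] at h2
    linarith
  obtain ⟨v, hv, hva⟩ := exists_min (hne s) isClosed_closure (hconv s)
  change ‖v‖ = a s at hva
  have hshift : ∀ b, ∀ w ∈ C s, U b w ∈ C (s + |b|) := by
    intro b
    have hc : Convex ℝ {w | U b w ∈ C (s + |b|)} :=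
      (hconv _).linear_preimage ((U b).restrictScalars ℝ).toLinearMap
    refine closure_minimal (convexHull_min ?_ hc) (isClosed_closure.preimage (U b).continuous)
    rintro _ ⟨c, hc, rfl⟩
    refine subset_closure (subset_convexHull _ _ ⟨b + c, ?_, h.add _ _ _⟩)
    rw [mem_closedBall_zero_iff, Real.norm_eq_abs] at *
    rw [max_eq_left hs0.le] at hc
    refine le_trans ?_ (le_max_left _ _)
    linarith [abs_add_le b c]
  have hvo : v ∈ (Hc U)ᗮ := by
    have hc : Convex ℝ ((Hc U)ᗮ : Set H) := ((Hc U)ᗮ.restrictScalars ℝ).convex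
    refine closure_minimal (convexHull_min ?_ hc) (Submodule.isClosed_orthogonal _) hv
    rintro _ ⟨c, -, rfl⟩
    exact orth_inv h c hξ
  have hvc : v ∈ Hc U := by
    refine mem_Hc h ?_
    have hb : ∀ b, ‖U b v - v‖ ≤ √(4 * a s ^ 2 - 4 * a (s + |b|) ^ 2) := by
      intro b
      refine Real.le_sqrt_of_sq_le ?_
      have hm : (1 / 2 : ℝ) • U b v + (1 / 2 : ℝ) • v ∈ C (s + |b|) :=
        hconv _ (hshift b v hv) (hmono (le_add_of_nonneg_right (abs_nonneg b)) hv)
          (by norm_num) (by norm_num) (by norm_num)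
      have h1 : a (s + |b|) ≤ ‖U b v + v‖ / 2 := by
        refine (Metric.infDist_le_dist_of_mem hm).trans ?_
        rw [dist_comm, dist_zero_right, ← smul_add, norm_smul]
        simp only [one_div, norm_inv, Real.norm_ofNat]
        linarith
      have h2 := parallelogram_law_with_norm ℂ (U b v) v
      rw [h.norm, hva] at h2
      have h3 : 0 ≤ a (s + |b|) := Metric.infDist_nonneg
      nlinarith
    refine squeeze_zero (fun _ => norm_nonneg _) hb ?_
    have h1 : Tendsto (fun b : ℝ => a (s + |b|)) (𝓝 0) (𝓝 (a s)) := by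
      refine hs.tendsto.comp ?_
      simpa using (by fun_prop : Continuous fun b : ℝ => s + |b|).tendsto 0
    have := ((tendsto_const_nhds (x := 4 * a s ^ 2)).sub ((h1.pow 2).const_mul 4)).sqrt
    simpa using this
  have hv0 : v = 0 := by
    have := (Submodule.mem_orthogonal _ _).1 hvo v hvc
    exact inner_self_eq_zero.1 this
  rw [hv0] at hv
  refine closure_mono (convexHull_mono (image_mono ?_)) hv
  rw [max_eq_left hs0.le]
  exact Metric.closedBall_subset_ball hsr

end Pool.Agent.H.MP_a2f955_an
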