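import Pool.Agent.H.MP_a2f955_an.A

open MeasureTheory Set Filter Topology Pointwise
open scoped InnerProductSpace

namespace Pool.Agent.H.MP_a2f955_an

variable {H : Type*} [NormedAddCommGroup H] [InnerProductSpace ℂ H] {U : ℝ → H →L[ℂ] H}

lemma coef_le (h : IsRep U) (ξ w : H) (a : ℝ) : ‖⟪ξ, U a w⟫_ℂ‖ ≤ ‖ξ‖ * ‖w‖ := by
  simpa [h.norm] using norm_inner_le_norm (𝕜 := ℂ) ξ (U a w)

/-- the coefficient function cannot stay near a large value on a compact set of positive measure -/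
lemma near_small [CompleteSpace H] (h : IsRep U) {ξ : H} (hξ : ξ ∈ (Hc U)ᗮ) {K : Set ℝ}
    (hK : IsCompact K) (hpos : volume K ≠ 0) {z : ℂ} {ε : ℝ} (hε : 0 ≤ ε)
    (hz : ∀ x ∈ K, ‖⟪ξ, U x ξ⟫_ℂ - z‖ ≤ ε) : ‖z‖ ≤ ε := by
  refine le_of_forall_pos_le_add fun θ hθ => ?_
  set C := ‖ξ‖ * ‖ξ‖ + ‖z‖ with hC
  have hC0 : 0 ≤ C := by positivity
  set θ' := θ / (C + ‖ξ‖ + 1) with hθ'
  have hθ'0 : 0 < θ' := by positivity
  have hfin : volume K ≠ ⊤ := hK.measure_lt_top.ne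
  have hKr : 0 < volume.real K := ENNReal.toReal_pos hpos hfin
  have hev := eventually_nhds_zero_measure_vadd_sdiff_lt (μ := (volume : Measure ℝ)) hK hK.isClosed
    (ε := ENNReal.ofReal (θ' * volume.real K)) (by simpa using mul_pos hθ'0 hKr)
  obtain ⟨r, hr, hball⟩ := Metric.eventually_nhds_iff_ball.1 hev
  let Q : Set H := {w | ∃ φ : ℝ → ℝ, IntegrableOn φ K ∧ ∫ x in K, φ x ≤ θ' * volume.real K ∧
    ∀ x ∈ K, ‖⟪ξ, U x w⟫_ℂ - z‖ ≤ ε + C * φ x}
  have hQ : Convex ℝ Q := by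
    rintro w ⟨φ, h1, h2, h3⟩ w' ⟨φ', h1', h2', h3'⟩ a b ha hb hab
    refine ⟨fun x => a * φ x + b * φ' x, (h1.const_mul a).add (h1'.const_mul b), ?_, fun x hx => ?_⟩
    · rw [integral_add (h1.const_mul a) (h1'.const_mul b), integral_const_mul, integral_const_mul]
      have e : θ' * volume.real K = a * (θ' * volume.real K) + b * (θ' * volume.real K) := by
        rw [← add_mul, hab, one_mul]
      rw [e]
      gcongr
    · have e : ⟪ξ, U x (a • w + b • w')⟫_ℂ - z =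
          (a : ℂ) * (⟪ξ, U x w⟫_ℂ - z) + (b : ℂ) * (⟪ξ, U x w'⟫_ℂ - z) := by
        rw [← Complex.coe_smul, ← Complex.coe_smul, map_add, map_smul, map_smul, inner_add_right,
          inner_smul_right, inner_smul_right]
        have : (a : ℂ) + b = 1 := by exact_mod_cast hab
        linear_combination z * this
      rw [e]
      refine (norm_add_le _ _).trans ?_
      rw [norm_mul, norm_mul, Complex.norm_real, Complex.norm_real, Real.norm_of_nonneg ha,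
        Real.norm_of_nonneg hb]
      have a1 := mul_le_mul_of_nonneg_left (h3 x hx) ha
      have a2 := mul_le_mul_of_nonneg_left (h3' x hx) hb
      have : ε = a * ε + b * ε := by rw [← add_mul, hab, one_mul]
      nlinarith
  have hsub : (fun a => U a ξ) '' Metric.ball 0 r ⊆ Q := by
    rintro _ ⟨a, ha, rfl⟩
    have hm : MeasurableSet ((fun x => x + a) ⁻¹' K)ᶜ :=
      ((measurable_add_const a) hK.measurableSet).compl
    refine ⟨(((fun x => x + a) ⁻¹' K)ᶜ).indicator fun _ => 1,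
      (integrableOn_const hfin).indicator hm, ?_, fun x hx => ?_⟩
    · rw [integral_indicator_const _ hm, smul_eq_mul, mul_one, measureReal_restrict_apply hm]
      have e : volume (((fun x => x + a) ⁻¹' K)ᶜ ∩ K) = volume ((a +ᵥ K) \ K) := by
        rw [← measure_preimage_add_right volume a ((a +ᵥ K) \ K)]
        congr 1
        ext x
        simp only [mem_inter_iff, mem_compl_iff, mem_preimage, Set.mem_sdiff,
          Set.mem_vadd_set_iff_neg_vadd_mem, vadd_eq_add]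
        rw [and_comm, add_comm x a, neg_add_cancel_left]
      rw [Measure.real, e]
      exact ENNReal.toReal_le_of_le_ofReal (by positivity) (hball a ha).le
    · rw [← h.add]
      by_cases hxa : x + a ∈ K
      · rw [indicator_of_notMem (by simpa using hxa)]
        simpa using hz _ hxa
      · rw [indicator_of_mem (by simpa using hxa)]
        refine (norm_sub_le _ _).trans ?_
        have := coef_le h ξ ξ (x + a)
        linarith
  obtain ⟨w, hw, hwn⟩ := Metric.mem_closure_iff.1 (zero_mem_hull h hξ hr) θ' hθ'0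
  rw [dist_comm, dist_zero_right] at hwn
  obtain ⟨φ, h1, h2, h3⟩ := convexHull_min hsub hQ hw
  obtain ⟨x, hx, hφ⟩ := exists_le_setAverage hpos hfin h1
  have hφ' : φ x ≤ θ' := by
    refine hφ.trans ?_
    rw [setAverage_eq, smul_eq_mul, inv_mul_le_iff₀ hKr]
    linarith
  have a1 := h3 x hx
  have a2 := coef_le h ξ w x
  have a3 : ‖z‖ ≤ ‖⟪ξ, U x w⟫_ℂ‖ + ‖⟪ξ, U x w⟫_ℂ - z‖ := by
    simpa using norm_sub_le ⟪ξ, U x w⟫_ℂ (⟪ξ, U x w⟫_ℂ - z)
  have a4 : C * φ x ≤ C * θ' := by gcongr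
  have a5 : ‖ξ‖ * ‖w‖ ≤ ‖ξ‖ * θ' := by gcongr
  have a6 : θ' * (C + ‖ξ‖ + 1) = θ := by rw [hθ']; field_simp
  nlinarith

/-- approximable by measurable functions near zero -/
def Appr (g : ℝ → ℂ) : Prop :=
  ∀ ε : ℝ, 0 < ε → ∃ δ : ℝ, 0 < δ ∧ ∃ k : ℝ → ℂ, Measurable k ∧
    ∀ᵐ x, |x| < δ → ‖g x - k x‖ ≤ ε

lemma ae_small [CompleteSpace H] (h : IsRep U) {ξ : H} (hξ : ξ ∈ (Hc U)ᗮ)
    (ha : Appr fun x => ⟪ξ, U x ξ⟫_ℂ) {ε : ℝ} (hε : 0 < ε) :
    ∃ δ : ℝ, 0 < δ ∧ ∀ᵐ x, |x| < δ → ‖⟪ξ, U x ξ⟫_ℂ‖ ≤ ε := by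
  obtain ⟨δ, hδ, k, hk, hae⟩ := ha (ε / 5) (by positivity)
  refine ⟨δ, hδ, ?_⟩
  obtain ⟨N, hN, hNm, hN0⟩ := exists_measurable_superset_of_null (ae_iff.1 hae)
  obtain ⟨z, hz⟩ := TopologicalSpace.exists_dense_seq ℂ
  have key : ∀ j, ∀ᵐ x, 2 * (ε / 5) < ‖z j‖ → |x| < δ → ε / 5 < ‖k x - z j‖ := by
    intro j
    by_cases hj : 2 * (ε / 5) < ‖z j‖
    swap
    · exact Eventually.of_forall fun x h => absurd h hj
    by_contra hcon
    let S : Set ℝ := ({x | |x| < δ} ∩ {x | ‖k x - z j‖ ≤ ε / 5}) \ N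
    have hSm : MeasurableSet S :=
      ((measurableSet_lt (by fun_prop) measurable_const).inter
        (measurableSet_le (by fun_prop) measurable_const)).diff hNm
    have hS0 : 0 < volume S := by
      rw [pos_iff_ne_zero]
      intro h0
      apply hcon
      have := measure_eq_zero_iff_ae_notMem.1 h0
      filter_upwards [this, measure_eq_zero_iff_ae_notMem.1 hN0] with x hx hxN _ hxδ
      by_contra hle
      exact hx ⟨⟨hxδ, not_lt.1 hle⟩, hxN⟩
    obtain ⟨K, hKS, hK, hK0⟩ := hSm.exists_lt_isCompact hS0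
    refine absurd (near_small h hξ hK hK0.ne' (z := z j) (ε := 2 * (ε / 5)) (by positivity)
      fun x hx => ?_) (not_le.2 hj)
    obtain ⟨⟨h1, h2⟩, h3⟩ := hKS hx
    have h4 : ‖⟪ξ, U x ξ⟫_ℂ - k x‖ ≤ ε / 5 := by
      by_contra hc
      exact h3 (hN fun hh => hc (hh h1))
    have := norm_sub_le_norm_sub_add_norm_sub ⟪ξ, U x ξ⟫_ℂ (k x) (z j)
    have h2' : ‖k x - z j‖ ≤ ε / 5 := h2
    linarith
  filter_upwards [hae, ae_all_iff.2 key] with x h1 h2 hx
  obtain ⟨j, hj⟩ := hz.exists_dist_lt (k x) (by positivity : 0 < ε / 5)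
  rw [dist_eq_norm] at hj
  have h3 : ‖z j‖ ≤ 2 * (ε / 5) := by
    by_contra hc
    have := h2 j (not_le.1 hc) hx
    linarith
  have h4 := h1 hx
  have h5 : ‖⟪ξ, U x ξ⟫_ℂ‖ ≤ ‖⟪ξ, U x ξ⟫_ℂ - k x‖ + ‖k x - z j‖ + ‖z j‖ := by
    have e : ⟪ξ, U x ξ⟫_ℂ = (⟪ξ, U x ξ⟫_ℂ - k x) + (k x - z j) + z j := by ring
    conv_lhs => rw [e]
    exact norm_add₃_le
  linarith

lemma ae_zero (h : IsRep U) {ξ : H}
    (hs : ∀ ε : ℝ, 0 < ε → ∃ δ : ℝ, 0 < δ ∧ ∀ᵐ x, |x| < δ → ‖⟪ξ, U x ξ⟫_ℂ‖ ≤ ε) :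
    ∀ᵐ x, ⟪ξ, U x ξ⟫_ℂ = 0 := by
  suffices H1 : ∀ η : ℝ, 0 < η → ∀ᵐ x, ‖⟪ξ, U x ξ⟫_ℂ‖ ≤ η by
    filter_upwards [ae_all_iff.2 fun n : ℕ => H1 (1 / ((n : ℝ) + 1)) (by positivity)] with x hx
    rw [← norm_le_zero_iff]
    exact ge_of_tendsto' tendsto_one_div_add_atTop_nhds_zero_nat hx
  intro η hη
  by_contra hcon
  set M := ‖ξ‖ * ‖ξ‖ with hM
  have hM0 : 0 ≤ M := by positivity
  obtain ⟨δ, hδ, hae⟩ := hs (η ^ 2 / (2 * (M + 1))) (by positivity)
  set ε := η ^ 2 / (2 * (M + 1)) with hε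
  have hε0 : 0 < ε := by positivity
  let S : Set ℝ := {x | ¬ ‖⟪ξ, U x ξ⟫_ℂ‖ ≤ η}
  have hS : volume S ≠ 0 := fun h0 => hcon (ae_iff.2 h0)
  obtain ⟨x0, -, hx0⟩ := exists_mem_forall_mem_nhdsWithin_pos_measure hS
  have hJ : 0 < volume (S ∩ Metric.ball x0 (δ / 2)) :=
    hx0 _ (inter_mem_nhdsWithin _ (Metric.ball_mem_nhds _ (by positivity)))
  have hF : ∀ N : ℕ, ∃ F : Finset ℝ, F.card = N ∧ (∀ s ∈ F, s ∈ S ∩ Metric.ball x0 (δ / 2)) ∧
      ∀ s ∈ F, ∀ t ∈ F, s ≠ t → ‖⟪ξ, U (t - s) ξ⟫_ℂ‖ ≤ ε := by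
    intro N
    induction N with
    | zero => exact ⟨∅, rfl, by simp, by simp⟩
    | succ N ih =>
      obtain ⟨F, hc, h1, h2⟩ := ih
      have a1 : ∀ᵐ x, ∀ t ∈ F, (|x - t| < δ → ‖⟪ξ, U (x - t) ξ⟫_ℂ‖ ≤ ε) ∧
          (|t - x| < δ → ‖⟪ξ, U (t - x) ξ⟫_ℂ‖ ≤ ε) ∧ x ≠ t := by
        refine (Filter.eventually_all_finset F).2 fun t _ => ?_
        refine ((measurePreserving_sub_right volume t).quasiMeasurePreserving.ae hae).and
          (((Measure.measurePreserving_sub_left volume t).quasiMeasurePreserving.ae hae).and ?_)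
        exact measure_eq_zero_iff_ae_notMem.1 (measure_singleton t)
      obtain ⟨x, hx, hx2⟩ := Measure.exists_mem_of_measure_ne_zero_of_ae hJ.ne'
        (ae_restrict_of_ae a1)
      have hxF : x ∉ F := fun hh => (hx2 x hh).2.2 rfl
      have hd : ∀ t ∈ F, |x - t| < δ := by
        intro t ht
        have b1 := hx.2
        have b2 := (h1 t ht).2
        rw [Metric.mem_ball, Real.dist_eq, abs_lt] at b1 b2
        rw [abs_lt]
        constructor <;> linarith [b1.1, b1.2, b2.1, b2.2]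
      refine ⟨insert x F, by rw [Finset.card_insert_of_notMem hxF, hc], ?_, ?_⟩
      · intro s hs
        rcases Finset.mem_insert.1 hs with rfl | hs
        exacts [hx, h1 s hs]
      · intro s hs t ht hst
        rcases Finset.mem_insert.1 hs with rfl | hs' <;>
          rcases Finset.mem_insert.1 ht with rfl | ht'
        · exact absurd rfl hst
        · exact (hx2 t ht').2.1 (by rw [abs_sub_comm]; exact hd t ht')
        · exact (hx2 s hs').1 (hd s hs')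
        · exact h2 s hs' t ht' hst
  obtain ⟨N, hN⟩ := exists_nat_gt (2 * M ^ 2 / η ^ 2)
  have hN0 : (0 : ℝ) < N := lt_of_le_of_lt (by positivity) hN
  obtain ⟨F, hc, h1, h2⟩ := hF N
  choose c hc1 hc2 using fun s : ℝ => Complex.exists_norm_eq_mul_self ⟪ξ, U s ξ⟫_ℂ
  set v := ∑ s ∈ F, c s • U s ξ with hv
  have b1 : N * η ≤ ‖ξ‖ * ‖v‖ := by
    refine le_trans ?_ (norm_inner_le_norm (𝕜 := ℂ) ξ v)
    have : ⟪ξ, v⟫_ℂ = ((∑ s ∈ F, ‖⟪ξ, U s ξ⟫_ℂ‖ : ℝ) : ℂ) := by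
      rw [hv, inner_sum]
      push_cast
      exact Finset.sum_congr rfl fun s _ => by rw [inner_smul_right, hc2]
    rw [this, Complex.norm_real, Real.norm_of_nonneg (by positivity), ← hc, ← nsmul_eq_mul]
    exact Finset.card_nsmul_le_sum _ _ _ fun s hs => (not_le.1 (h1 s hs).1).le
  have b2 : ‖v‖ ^ 2 ≤ N * (M + N * ε) := by
    rw [← @inner_self_eq_norm_sq ℂ]
    refine (RCLike.re_le_norm _).trans ?_
    rw [hv, sum_inner]
    refine (norm_sum_le _ _).trans ?_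
    rw [← hc, ← nsmul_eq_mul]
    refine Finset.sum_le_card_nsmul _ _ _ fun s hs => ?_
    rw [inner_sum]
    refine (norm_sum_le _ _).trans ?_
    have : ∀ t ∈ F, ‖⟪c s • U s ξ, c t • U t ξ⟫_ℂ‖ ≤ (if t = s then M else 0) + ε := by
      intro t ht
      rw [inner_smul_left, inner_smul_right, norm_mul, norm_mul, RCLike.norm_conj, hc1, hc1,
        one_mul, one_mul, h.move, ← h.add]
      split_ifs with hts
      · linarith [coef_le h ξ ξ (-s + t)]
      · rw [zero_add, neg_add_eq_sub]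
        exact h2 s hs t ht (Ne.symm hts)
    refine (Finset.sum_le_sum this).trans ?_
    rw [Finset.sum_add_distrib, Finset.sum_ite_eq' F s, if_pos hs, Finset.sum_const, nsmul_eq_mul]
  have b3 : (N * η) ^ 2 ≤ M * (N * (M + N * ε)) := by
    calc (N * η) ^ 2 ≤ (‖ξ‖ * ‖v‖) ^ 2 := by gcongr
      _ = M * ‖v‖ ^ 2 := by rw [hM]; ring
      _ ≤ _ := by gcongr
  have b4 : M * ε ≤ η ^ 2 / 2 := by
    rw [hε, mul_div_assoc', div_le_div_iff₀ (by positivity) (by positivity)]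
    nlinarith [sq_nonneg η]
  rw [div_lt_iff₀ (by positivity)] at hN
  have b5 : N * η ^ 2 ≤ M * (M + N * ε) := by
    have : (N : ℝ) * (N * η ^ 2) ≤ N * (M * (M + N * ε)) := by nlinarith
    exact le_of_mul_le_mul_left this hN0
  nlinarith

theorem rep_meas [CompleteSpace H] (h : IsRep U) (ξ : H) (ha : Appr fun x => ⟪ξ, U x ξ⟫_ℂ) :
    AEMeasurable fun x => ⟪ξ, U x ξ⟫_ℂ := by
  have : CompleteSpace (Hc U) := (Hc_closed h).completeSpace_coe
  obtain ⟨p, hp, q, hq, rfl⟩ := (Hc U).exists_add_mem_mem_orthogonal ξ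
  have e : ∀ x, ⟪p + q, U x (p + q)⟫_ℂ = ⟪p, U x p⟫_ℂ + ⟪q, U x q⟫_ℂ := by
    intro x
    rw [map_add, inner_add_left, inner_add_right, inner_add_right,
      (Submodule.mem_orthogonal _ _).1 (orth_inv h x hq) p hp,
      (Submodule.mem_orthogonal' _ _).1 hq _ (Hc_inv h x hp)]
    ring
  have hpc : Continuous fun x => ⟪p, U x p⟫_ℂ := continuous_const.inner hp
  have hq0 : ∀ᵐ x, ⟪q, U x q⟫_ℂ = 0 := by
    refine ae_zero h fun ε hε => ae_small h hq (fun ε hε => ?_) hε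
    obtain ⟨δ, hδ, k, hk, hae⟩ := ha ε hε
    refine ⟨δ, hδ, fun x => k x - ⟪p, U x p⟫_ℂ, hk.sub hpc.measurable, ?_⟩
    filter_upwards [hae] with x hx hxδ
    have := hx hxδ
    rw [e] at this
    convert this using 2
    ring
  refine hpc.measurable.aemeasurable.congr ?_
  filter_upwards [hq0] with x hx
  rw [e, hx, add_zero]

end Pool.Agent.H.MP_a2f955_an
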