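import Mathlib

open scoped ComplexOrder

namespace Pool.Agent.H.MP_a2f955_an

/-- The interval `(-A, A)`, for `0 < A ≤ ∞`. -/
def Iv (A : ENNReal) : Set ℝ := {x | ENNReal.ofReal |x| < A}

/-- The value at `t` of the almost periodic polynomial with coefficients `c`. -/
noncomputable def ev (c : ℝ →₀ ℂ) (t : ℝ) : ℂ :=
  ∑ l ∈ c.support, c l * Complex.exp (Complex.I * l * t)

/-- The functional attached to `f`, applied to the polynomial with coefficients `c`. -/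
noncomputable def Phi (f : ℝ → ℂ) (c : ℝ →₀ ℂ) : ℂ := ∑ l ∈ c.support, c l * f l

/-- All exponents lie in `(-A, A)`. -/
def InAP (A : ENNReal) (c : ℝ →₀ ℂ) : Prop := ∀ l ∈ c.support, l ∈ Iv A

/-- The values of the modulus of the functional on the unit ball of `AP_A`. -/
def vals (A : ENNReal) (f : ℝ → ℂ) : Set ℝ :=
  {r | ∃ c : ℝ →₀ ℂ, InAP A c ∧ (∀ t, ‖ev c t‖ ≤ 1) ∧ r = ‖Phi f c‖}

/-- The class `R_A`. -/
def InR (A : ENNReal) (f : ℝ → ℂ) : Prop := BddAbove (vals A f)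

/-- The norm of `R_A`. -/
noncomputable def nrm (A : ENNReal) (f : ℝ → ℂ) : ℝ := sSup (vals A f)

/-- The cone `P_A`. -/
def InP (A : ENNReal) (f : ℝ → ℂ) : Prop :=
  InR A f ∧ ∀ c : ℝ →₀ ℂ, InAP A c → (∀ t, 0 ≤ ev c t) → 0 ≤ Phi f c

end Pool.Agent.H.MP_a2f955_an
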