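import Pool.Agent.H.MP_a2f955_an.B
import Pool.Agent.H.MP_a2f955_an.Defs

open MeasureTheory Set Filter Topology
open scoped InnerProductSpace ComplexOrder ComplexConjugate

namespace Pool.Agent.H.MP_a2f955_an

/-- exponentials -/
noncomputable def ex (t l : ℝ) : ℂ := Complex.exp (Complex.I * l * t)

/-- linear form of `Phi` -/
noncomputable def PL (f : ℝ → ℂ) : (ℝ →₀ ℂ) →ₗ[ℂ] ℂ := Finsupp.linearCombination ℂ f

lemma Phi_eq (f : ℝ → ℂ) (c : ℝ →₀ ℂ) : Phi f c = PL f c := rfl
lemma ev_eq (c : ℝ →₀ ℂ) (t : ℝ) : ev c t = PL (ex t) c := rfl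

@[simp] lemma PL_single (f : ℝ → ℂ) (l : ℝ) (a : ℂ) : PL f (Finsupp.single l a) = a * f l := by
  simp [PL]

lemma PL_apply (f : ℝ → ℂ) (c : ℝ →₀ ℂ) : PL f c = ∑ l ∈ c.support, c l * f l := rfl

lemma ex_add (t a b : ℝ) : ex t (a + b) = ex t a * ex t b := by
  simp only [ex, ← Complex.exp_add]
  congr 1
  push_cast
  ring

lemma ex_zero (t : ℝ) : ex t 0 = 1 := by simp [ex]

lemma conj_ex (t a : ℝ) : conj (ex t a) = ex t (-a) := by
  simp only [ex, ← Complex.exp_conj]
  congr 1
  simp

lemma norm_ex (t a : ℝ) : ‖ex t a‖ = 1 := by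
  rw [ex, Complex.norm_exp]
  simp

/-- the space of coefficient vectors -/
abbrev AP (A : ENNReal) : Submodule ℂ (ℝ →₀ ℂ) := Finsupp.supported ℂ ℂ (Iv A)

lemma inAP_iff {A : ENNReal} {c : ℝ →₀ ℂ} : InAP A c ↔ c ∈ AP A := Iff.rfl

lemma neg_mem_Iv {A : ENNReal} {l : ℝ} (h : l ∈ Iv A) : -l ∈ Iv A := by
  simpa [Iv] using h

lemma zero_mem_Iv {A : ENNReal} (h : 0 < A) : (0 : ℝ) ∈ Iv A := by simpa [Iv] using h

lemma isOpen_Iv (A : ENNReal) : IsOpen (Iv A) :=
  isOpen_lt (ENNReal.continuous_ofReal.comp continuous_abs) continuous_const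

lemma herm {A : ENNReal} (hA : 0 < A) {f : ℝ → ℂ}
    (hf : ∀ c : ℝ →₀ ℂ, InAP A c → (∀ t, 0 ≤ ev c t) → 0 ≤ Phi f c) {l : ℝ} (hl : l ∈ Iv A) :
    f (-l) = conj (f l) := by
  have key : ∀ a : ℂ, ‖a‖ ≤ 1 → (2 * f 0 + a * f l + conj a * f (-l)).im = 0 := by
    intro a ha
    have := hf (Finsupp.single 0 2 + Finsupp.single l a + Finsupp.single (-l) (conj a))
      (inAP_iff.2 (Submodule.add_mem _ (Submodule.add_mem _
        (Finsupp.single_mem_supported _ _ (zero_mem_Iv hA)) (Finsupp.single_mem_supported _ _ hl))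
        (Finsupp.single_mem_supported _ _ (neg_mem_Iv hl)))) fun t => ?_
    · rw [Phi_eq] at this
      simp only [map_add, PL_single] at this
      exact (Complex.le_def.1 this).2.symm
    · rw [ev_eq]
      simp only [map_add, PL_single, ex_zero, ← conj_ex, ← map_mul]
      have h1 : ‖a * ex t l‖ ≤ 1 := by rw [norm_mul, norm_ex, mul_one]; exact ha
      have h2 := (abs_le.1 ((Complex.abs_re_le_norm _).trans h1)).1
      rw [add_assoc, Complex.add_conj, Complex.le_def]
      constructor
      · simp only [Complex.zero_re, mul_one, Complex.add_re, Complex.re_ofNat, Complex.ofReal_re]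
        linarith
      · simp
  have k0 := key 0 (by simp)
  have k1 := key 1 (by simp)
  have k2 := key Complex.I (by simp)
  simp only [map_zero, zero_mul, add_zero, map_one, one_mul, Complex.add_im, Complex.conj_I,
    neg_mul, Complex.neg_im, Complex.I_mul_im] at k0 k1 k2
  apply Complex.ext
  · simp only [Complex.conj_re]; linarith
  · simp only [Complex.conj_im]; linarith

lemma re_pos {A : ENNReal} (hA : 0 < A) {f : ℝ → ℂ} (hf : InP A f) {c : ℝ →₀ ℂ} (hc : c ∈ AP A)
    (h : ∀ t, 0 ≤ (PL (ex t) c).re) : 0 ≤ (PL f c).re := by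
  let d : ℝ →₀ ℂ := ∑ l ∈ c.support, Finsupp.single (-l) (conj (c l))
  have hd : d ∈ AP A := Submodule.sum_mem _ fun l hl =>
    Finsupp.single_mem_supported _ _ (neg_mem_Iv (hc hl))
  have e : ∀ g : ℝ → ℂ, (∀ l ∈ Iv A, g (-l) = conj (g l)) → PL g d = conj (PL g c) := by
    intro g hg
    rw [PL_apply g c, map_sum, map_sum]
    exact Finset.sum_congr rfl fun l hl => by rw [PL_single, hg l (hc hl), map_mul]
  have := hf.2 (c + d) (inAP_iff.2 (Submodule.add_mem _ hc hd)) fun t => ?_
  · rw [Phi_eq, map_add, e f fun l hl => herm hA hf.2 hl, Complex.add_conj] at this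
    have := (Complex.le_def.1 this).1
    simp only [Complex.zero_re, Complex.ofReal_re] at this
    linarith
  · rw [ev_eq, map_add, e _ fun l _ => (conj_ex t l).symm, Complex.add_conj]
    exact_mod_cast mul_nonneg zero_le_two (h t)

lemma extend {A : ENNReal} (hA : 0 < A) {g : ℝ → ℂ}
    (hg : ∀ c ∈ AP A, (∀ t, 0 ≤ (PL (ex t) c).re) → 0 ≤ (PL g c).re) :
    ∃ G : ℝ → ℂ, (∀ l ∈ Iv A, G l = g l) ∧
      ∀ c, (∀ t, 0 ≤ (PL (ex t) c).re) → 0 ≤ (PL G c).re := by
  let s : PointedCone ℝ (ℝ →₀ ℂ) :=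
    { carrier := {c | ∀ t, 0 ≤ (PL (ex t) c).re}
      add_mem' := fun {a b} ha hb t => by
        rw [map_add, Complex.add_re]
        exact add_nonneg (ha t) (hb t)
      zero_mem' := fun t => by simp
      smul_mem' := fun r c hc t => by
        change 0 ≤ (PL (ex t) ((r : ℝ) • c)).re
        rw [← Complex.coe_smul, map_smul, smul_eq_mul, Complex.re_ofReal_mul]
        exact mul_nonneg r.2 (hc t) }
  let f0 : (ℝ →₀ ℂ) →ₗ[ℝ] ℝ := Complex.reLm.comp ((PL g).restrictScalars ℝ)
  obtain ⟨ψ, h1, h2⟩ := riesz_extension s (f0.toPMap ((AP A).restrictScalars ℝ))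
    (fun x hx => hg x x.2 hx) (fun y => ⟨⟨Finsupp.single 0 ((∑ l ∈ y.support, ‖y l‖ : ℝ) : ℂ),
      Finsupp.single_mem_supported _ _ (zero_mem_Iv hA)⟩, fun t => by
        rw [map_add, PL_single, ex_zero, mul_one, Complex.add_re, Complex.ofReal_re]
        have a1 : ‖PL (ex t) y‖ ≤ ∑ l ∈ y.support, ‖y l‖ := by
          rw [PL_apply]
          refine (norm_sum_le _ _).trans (le_of_eq (Finset.sum_congr rfl fun l _ => ?_))
          rw [norm_mul, norm_ex, mul_one]
        linarith [(abs_le.1 ((Complex.abs_re_le_norm _).trans a1)).1]⟩)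
  let G : ℝ → ℂ := fun l => ⟨ψ (Finsupp.single l 1), -ψ (Finsupp.single l Complex.I)⟩
  refine ⟨G, fun l hl => ?_, fun c hc => ?_⟩
  · have a1 := h1 ⟨Finsupp.single l 1, Finsupp.single_mem_supported _ _ hl⟩
    have a2 := h1 ⟨Finsupp.single l Complex.I, Finsupp.single_mem_supported _ _ hl⟩
    change ψ (Finsupp.single l 1) = (PL g (Finsupp.single l 1)).re at a1
    change ψ (Finsupp.single l Complex.I) = (PL g (Finsupp.single l Complex.I)).re at a2
    apply Complex.ext
    · simp [G, a1]
    · simp [G, a2]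
  · have : ∀ c, (PL G c).re = ψ c := by
      intro c
      induction c using Finsupp.induction_linear with
      | zero => simp
      | add a b ha hb => rw [map_add, map_add, Complex.add_re, ha, hb]
      | single l a =>
        have e : Finsupp.single l a =
            a.re • Finsupp.single l (1 : ℂ) + a.im • Finsupp.single l Complex.I := by
          rw [Finsupp.smul_single, Finsupp.smul_single, ← Finsupp.single_add]
          congr 1
          simp
        rw [PL_single, e, map_add, map_smul, map_smul]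
        simp [G]
    rw [this]
    exact h2 c hc

/-- the pre-Hilbert space of a positive definite function -/
def Pre (_G : ℝ → ℂ) : Type := ℝ →₀ ℂ

noncomputable instance (G : ℝ → ℂ) : AddCommGroup (Pre G) := inferInstanceAs (AddCommGroup (ℝ →₀ ℂ))
noncomputable instance (G : ℝ → ℂ) : Module ℂ (Pre G) := inferInstanceAs (Module ℂ (ℝ →₀ ℂ))

/-- the sesquilinear form -/
noncomputable def ip (G : ℝ → ℂ) (a b : ℝ →₀ ℂ) : ℂ :=
  PL (fun m => conj (PL (fun l => conj (G (m - l))) a)) b

lemma ip_eq (G : ℝ → ℂ) (a b : ℝ →₀ ℂ) :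
    ip G a b = ∑ m ∈ b.support, ∑ l ∈ a.support, b m * conj (a l) * G (m - l) := by
  simp only [ip, PL_apply, map_sum, map_mul, Complex.conj_conj, Finset.mul_sum, mul_assoc]

lemma ip_add (G : ℝ → ℂ) (a b c : ℝ →₀ ℂ) : ip G (a + b) c = ip G a c + ip G b c := by
  simp only [ip, map_add]
  simp only [PL_apply _ c, mul_add, Finset.sum_add_distrib]

lemma ip_smul (G : ℝ → ℂ) (a b : ℝ →₀ ℂ) (r : ℂ) : ip G (r • a) b = conj r * ip G a b := by
  simp only [ip, map_smul, smul_eq_mul, map_mul]
  simp only [PL_apply _ b, Finset.mul_sum]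
  exact Finset.sum_congr rfl fun m _ => by ring

lemma PL_shift (f : ℝ → ℂ) (x : ℝ) (c : ℝ →₀ ℂ) :
    PL f (Finsupp.mapDomain (· + x) c) = PL (fun l => f (l + x)) c :=
  Finsupp.linearCombination_mapDomain _ _ _

lemma ip_shift (G : ℝ → ℂ) (x : ℝ) (a b : ℝ →₀ ℂ) :
    ip G (Finsupp.mapDomain (· + x) a) (Finsupp.mapDomain (· + x) b) = ip G a b := by
  simp only [ip, PL_shift, add_sub_add_right_eq_sub]

theorem pd_meas {G : ℝ → ℂ} (hG : ∀ c, (∀ t, 0 ≤ (PL (ex t) c).re) → 0 ≤ (PL G c).re)
    (ha : Appr G) : AEMeasurable G := by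
  have hh : ∀ l, G (-l) = conj (G l) := by
    intro l
    refine herm (A := ⊤) (by simp) (fun c _ hc => ?_) (by simp [Iv])
    simp only [ev_eq, Complex.le_def] at hc
    rw [Phi_eq, Complex.le_def]
    refine ⟨hG c fun t => (hc t).1, ?_⟩
    have a1 := hG (Complex.I • c) fun t => by
      simp [← (hc t).2]
    have a2 := hG ((-Complex.I) • c) fun t => by
      simp [← (hc t).2]
    simp only [map_smul, smul_eq_mul, neg_mul, Complex.neg_re, Complex.I_mul_re] at a1 a2
    simp only [Complex.zero_im]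
    linarith
  let core : PreInnerProductSpace.Core ℂ (Pre G) :=
    { inner := fun a b => ip G a b
      conj_inner_symm := fun a b => by
        change conj (ip G b a) = ip G a b
        rw [ip_eq, ip_eq, Finset.sum_comm]
        simp only [map_sum, map_mul, Complex.conj_conj, ← hh, neg_sub]
        exact Finset.sum_congr rfl fun m _ => Finset.sum_congr rfl fun l _ => by ring
      re_inner_nonneg := fun a => by
        change 0 ≤ (ip G a a).re
        have e : ∀ F : ℝ → ℂ, ∀ a : ℝ →₀ ℂ, PL F (∑ m ∈ a.support, ∑ l ∈ a.support,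
            Finsupp.single (m - l) (a m * conj (a l))) = ip F a a := by
          intro F a
          simp only [map_sum, PL_single, ip_eq]
        rw [← e]
        refine hG _ fun t => ?_
        rw [e, ip_eq]
        have : ∀ a : ℝ →₀ ℂ, ∑ m ∈ a.support, ∑ l ∈ a.support, a m * conj (a l) * ex t (m - l) =
            PL (ex t) a * conj (PL (ex t) a) := by
          intro a
          rw [PL_apply, map_sum, Finset.sum_mul_sum]
          refine Finset.sum_congr rfl fun m _ => Finset.sum_congr rfl fun l _ => ?_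
          rw [sub_eq_add_neg, ex_add, map_mul, conj_ex]
          ring
        rw [this, Complex.mul_conj, Complex.ofReal_re]
        exact Complex.normSq_nonneg _
      add_left := fun a b c => ip_add G a b c
      smul_left := fun a b r => ip_smul G a b r }
  let _ : SeminormedAddCommGroup (Pre G) :=
    InnerProductSpace.Core.toSeminormedAddCommGroup (c := core)
  let _ : InnerProductSpace ℂ (Pre G) := InnerProductSpace.ofCore core
  let T0 : ℝ → Pre G →ₗ[ℂ] Pre G := fun x => Finsupp.lmapDomain ℂ ℂ (· + x)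
  have hT0 : ∀ x a b, ⟪T0 x a, T0 x b⟫_ℂ = ⟪a, b⟫_ℂ := fun x a b => ip_shift G x a b
  let T : ℝ → Pre G →L[ℂ] Pre G := fun x => (T0 x).mkContinuous 1 fun a => by
    rw [one_mul, @norm_eq_sqrt_re_inner ℂ, hT0, ← @norm_eq_sqrt_re_inner ℂ]
  let U : ℝ → UniformSpace.Completion (Pre G) →L[ℂ] UniformSpace.Completion (Pre G) :=
    fun x => (T x).completion
  have hU : ∀ x (a : Pre G), U x a = (T0 x a : Pre G) := fun x a =>
    ContinuousLinearMap.completion_apply_coe _ _
  have hrep : IsRep U := by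
    refine ⟨fun v => ?_, fun x y v => ?_, fun x v w => ?_⟩
    · induction v using UniformSpace.Completion.induction_on with
      | hp => exact isClosed_eq (by fun_prop) (by fun_prop)
      | ih a =>
        rw [hU]
        congr 1
        change Finsupp.mapDomain (· + (0 : ℝ)) a = a
        simp only [add_zero]
        exact Finsupp.mapDomain_id
    · induction v using UniformSpace.Completion.induction_on with
      | hp => exact isClosed_eq (by fun_prop) (by fun_prop)
      | ih a =>
        rw [hU, hU, hU]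
        congr 1
        change Finsupp.mapDomain (· + (x + y)) a =
          Finsupp.mapDomain (· + x) (Finsupp.mapDomain (· + y) a)
        rw [← Finsupp.mapDomain_comp]
        congr 1
        ext l
        simp only [Function.comp]
        ring
    · induction v, w using UniformSpace.Completion.induction_on₂ with
      | hp => exact isClosed_eq (by fun_prop) (by fun_prop)
      | ih a b =>
        rw [hU, hU, UniformSpace.Completion.inner_coe, UniformSpace.Completion.inner_coe, hT0]
  let e0 : Pre G := Finsupp.single (0 : ℝ) (1 : ℂ)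
  have e : G = fun x => ⟪(e0 : UniformSpace.Completion (Pre G)), U x e0⟫_ℂ := by
    ext x
    rw [hU, UniformSpace.Completion.inner_coe]
    change G x = ip G (Finsupp.single 0 1) (Finsupp.mapDomain (· + x) (Finsupp.single 0 1))
    simp [ip]
  rw [e] at ha ⊢
  exact rep_meas hrep _ ha

lemma sq_aux {w : ℂ} {s : ℝ} (hs : 0 < s) (hw : ‖w‖ ≤ 1) : ‖1 - w‖ ≤ s / 2 + (1 - w).re / s := by
  have h1 : ‖1 - w‖ ^ 2 ≤ 2 * (1 - w).re := by
    have h2 : ‖w‖ ^ 2 ≤ 1 := pow_le_one₀ (norm_nonneg _) hw
    rw [Complex.sq_norm, Complex.normSq_apply] at *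
    simp only [Complex.sub_re, Complex.one_re, Complex.sub_im, Complex.one_im]
    nlinarith
  rw [div_add_div _ _ two_ne_zero hs.ne', le_div_iff₀ (by positivity)]
  nlinarith [sq_nonneg (‖1 - w‖ - s)]

lemma shift_bound {A : ENNReal} (hA : 0 < A) {f : ℝ → ℂ} (hf : InP A f) {c : ℝ →₀ ℂ}
    (hc : c ∈ AP A) (h1 : ∀ t, ‖PL (ex t) c‖ ≤ 1) {x : ℝ} (hx : x ∈ Iv A)
    (hcx : ∀ l ∈ c.support, l + x ∈ Iv A) {s : ℝ} (hs : 0 < s) :
    ‖f x - PL (fun l => f (l + x)) c‖ ≤ s / 2 * (f 0).re + (f 0 - PL f c).re / s := by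
  obtain ⟨v, hv1, hv⟩ := Complex.exists_norm_eq_mul_self (f x - PL (fun l => f (l + x)) c)
  have hm : Finsupp.mapDomain (· + x) c ∈ AP A := by
    classical
    intro l hl
    obtain ⟨m, hm, rfl⟩ := Finset.mem_image.1 (Finsupp.mapDomain_support hl)
    exact hcx m hm
  have h0 := Finsupp.single_mem_supported ℂ (1 : ℂ) (zero_mem_Iv hA)
  have := re_pos hA hf (c := ((s / 2 : ℝ) : ℂ) • Finsupp.single 0 1 +
      ((s⁻¹ : ℝ) : ℂ) • (Finsupp.single 0 1 - c) -
      v • (Finsupp.single x 1 - Finsupp.mapDomain (· + x) c))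
    (Submodule.sub_mem _ (Submodule.add_mem _ (Submodule.smul_mem _ _ h0)
      (Submodule.smul_mem _ _ (Submodule.sub_mem _ h0 hc))) (Submodule.smul_mem _ _
      (Submodule.sub_mem _ (Finsupp.single_mem_supported _ _ hx) hm))) fun t => ?_
  · simp only [map_sub, map_add, map_smul, PL_single, PL_shift, one_mul, smul_eq_mul, ← hv,
      Complex.sub_re, Complex.add_re, Complex.re_ofReal_mul, Complex.ofReal_re] at this
    rw [Complex.sub_re, div_eq_inv_mul _ s]
    linarith
  · have e : PL (fun l => ex t (l + x)) c = PL (ex t) c * ex t x := by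
      simp only [PL_apply, ex_add, Finset.sum_mul, mul_assoc]
    simp only [map_sub, map_add, map_smul, PL_single, PL_shift, one_mul, smul_eq_mul, ex_zero, e,
      Complex.sub_re _ (v * _), Complex.add_re, Complex.re_ofReal_mul, Complex.ofReal_re, mul_one]
    have a1 := sq_aux hs (h1 t)
    have a2 : (v * (ex t x - PL (ex t) c * ex t x)).re ≤ ‖1 - PL (ex t) c‖ := by
      refine (Complex.re_le_norm _).trans (le_of_eq ?_)
      rw [norm_mul, hv1, one_mul, ← one_sub_mul, norm_mul, norm_ex, mul_one]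
    rw [div_eq_inv_mul _ s] at a1
    linarith

theorem main {A : ENNReal} (hA : 0 < A) {f fp fm : ℝ → ℂ}
    (hm : AEMeasurable f (volume.restrict (Iv A))) (hp : InP A fp) (hn : InP A fm)
    (hd : ∀ l ∈ Iv A, f l = fp l - fm l) (hmin : (nrm A f : ℂ) = fp 0 + fm 0) :
    AEMeasurable fp (volume.restrict (Iv A)) ∧ AEMeasurable fm (volume.restrict (Iv A)) := by
  obtain ⟨G, hG1, hG2⟩ := extend hA (g := fun l => fp l + fm l) fun c hc h => by
    have e : PL (fun l => fp l + fm l) c = PL fp c + PL fm c := by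
      simp only [PL_apply, mul_add, Finset.sum_add_distrib]
    rw [e, Complex.add_re]
    exact add_nonneg (re_pos hA hp hc h) (re_pos hA hn hc h)
  have hI : MeasurableSet (Iv A) := (isOpen_Iv A).measurableSet
  have hG : AEMeasurable G := by
    refine pd_meas hG2 fun ε hε => ?_
    set m := (fp 0).re + (fm 0).re with hmdef
    have hmn : nrm A f = m := by
      have := congrArg Complex.re hmin
      simpa using this
    have hne : (vals A f).Nonempty := ⟨_, 0, by simp [InAP], by simp [ev], rfl⟩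
    set s := ε / (|m| / 2 + 1) with hs
    have hs0 : 0 < s := by positivity
    obtain ⟨_, ⟨c0, hc0, hc1, rfl⟩, hlt⟩ := exists_lt_of_lt_csSup hne
      (show m - s ^ 2 < sSup (vals A f) by
        change _ < nrm A f
        rw [hmn]; linarith [sq_pos_of_pos hs0])
    obtain ⟨u, hu1, hu⟩ := Complex.exists_norm_eq_mul_self (Phi f c0)
    set c := u • c0 with hc
    have hcA : c ∈ AP A := Submodule.smul_mem _ _ hc0
    have hcn : ∀ t, ‖PL (ex t) c‖ ≤ 1 := fun t => by
      rw [hc, map_smul, smul_eq_mul, norm_mul, hu1, one_mul]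
      exact hc1 t
    have hre : m - s ^ 2 < (PL fp c - PL fm c).re := by
      have e : PL fp c - PL fm c = PL f c := by
        simp only [PL_apply, ← Finset.sum_sub_distrib]
        exact Finset.sum_congr rfl fun l hl => by rw [hd l (hcA hl), mul_sub]
      rw [e, hc, map_smul, smul_eq_mul, ← Phi_eq, ← hu]
      exact hlt
    have hev : ∀ᶠ x in 𝓝 (0 : ℝ), x ∈ Iv A ∧ ∀ l ∈ c.support, l + x ∈ Iv A := by
      refine Eventually.and ((isOpen_Iv A).mem_nhds (zero_mem_Iv hA))
        ((Filter.eventually_all_finset _).2 fun l hl => ?_)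
      refine (by fun_prop : Continuous fun x : ℝ => l + x).continuousAt.eventually
        ((isOpen_Iv A).mem_nhds ?_)
      simpa using hcA hl
    obtain ⟨δ, hδ, hball⟩ := Metric.eventually_nhds_iff.1 hev
    refine ⟨δ, hδ, fun x => ∑ l ∈ c.support, c l * hm.mk f (l + x),
      Finset.measurable_sum _ fun l _ =>
        (hm.measurable_mk.comp (measurable_const_add l)).const_mul _, ?_⟩
    have h1 : ∀ᵐ y, y ∈ Iv A → f y = hm.mk f y := (ae_restrict_iff' hI).1 hm.ae_eq_mk
    have h2 : ∀ᵐ x, ∀ l ∈ c.support, l + x ∈ Iv A → f (l + x) = hm.mk f (l + x) :=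
      (Filter.eventually_all_finset _).2 fun l _ =>
        (measurePreserving_add_left volume l).quasiMeasurePreserving.ae h1
    filter_upwards [h2] with x hx hxδ
    obtain ⟨hxI, hxc⟩ := hball (y := x) (by simpa using hxδ)
    have b1 := shift_bound hA hp hcA hcn hxI hxc hs0
    have b2 := shift_bound hA hn (c := -c) (Submodule.neg_mem _ hcA) (by simpa using hcn) hxI
      (by simpa using hxc) hs0
    have e : G x - ∑ l ∈ c.support, c l * hm.mk f (l + x) =
        (fp x - PL (fun l => fp (l + x)) c) + (fm x - PL (fun l => fm (l + x)) (-c)) := by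
      rw [hG1 x hxI, map_neg, PL_apply, PL_apply]
      have : ∑ l ∈ c.support, c l * hm.mk f (l + x) =
          ∑ l ∈ c.support, c l * fp (l + x) - ∑ l ∈ c.support, c l * fm (l + x) := by
        rw [← Finset.sum_sub_distrib]
        exact Finset.sum_congr rfl fun l hl => by
          rw [← hx l hl (hxc l hl), hd _ (hxc l hl), mul_sub]
      rw [this]
      ring
    rw [e]
    refine (norm_add_le _ _).trans ?_
    rw [map_neg (PL fm)] at b2
    simp only [Complex.sub_re, Complex.neg_re] at b1 b2 hre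
    have b3 : ((fp 0).re - (PL fp c).re) / s + ((fm 0).re - -(PL fm c).re) / s ≤ s := by
      rw [← add_div, div_le_iff₀ hs0]
      nlinarith
    have b4 : s * (|m| / 2 + 1) = ε := by rw [hs]; field_simp
    have b5 : s * m ≤ s * |m| := mul_le_mul_of_nonneg_left (le_abs_self m) hs0.le
    have b6 : s / 2 * (fp 0).re + s / 2 * (fm 0).re = s * m / 2 := by rw [hmdef]; ring
    linarith
  constructor
  · refine ((hG.restrict.add hm).div_const 2).congr ((ae_restrict_iff' hI).2
      (Eventually.of_forall fun l hl => ?_))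
    simp only [Pi.add_apply, hG1 l hl, hd l hl]
    ring
  · refine ((hG.restrict.sub hm).div_const 2).congr ((ae_restrict_iff' hI).2
      (Eventually.of_forall fun l hl => ?_))
    simp only [Pi.sub_apply, hG1 l hl, hd l hl]
    ring

end Pool.Agent.H.MP_a2f955_an
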