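import Pool.Agent.H.MP_a2f955_an.C

open MeasureTheory Set Filter Topology
open scoped InnerProductSpace ComplexOrder ComplexConjugate

namespace Pool.Agent.H.MP_a2f955_an

lemma vals_ne (A : ENNReal) (f : ℝ → ℂ) : (vals A f).Nonempty :=
  ⟨_, 0, by simp [InAP], by simp [ev], rfl⟩

lemma nrm_nonneg {A : ENNReal} {f : ℝ → ℂ} (hf : InR A f) : 0 ≤ nrm A f :=
  le_trans (norm_nonneg _) (le_csSup hf ⟨0, by simp [InAP], by simp [ev], rfl⟩)

lemma bound {A : ENNReal} {f : ℝ → ℂ} (hf : InR A f) {c : ℝ →₀ ℂ} (hc : c ∈ AP A) {r : ℝ}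
    (hr : ∀ t, ‖PL (ex t) c‖ ≤ r) : ‖PL f c‖ ≤ nrm A f * r := by
  have hr0 : 0 ≤ r := (norm_nonneg _).trans (hr 0)
  have key : ∀ s : ℝ, r < s → ‖PL f c‖ ≤ nrm A f * s := by
    intro s hs
    have hs0 : 0 < s := hr0.trans_lt hs
    have := le_csSup hf ⟨((s⁻¹ : ℝ) : ℂ) • c, inAP_iff.2 (Submodule.smul_mem _ _ hc), fun t => ?_, rfl⟩
    · rw [Phi_eq, map_smul, smul_eq_mul, norm_mul, Complex.norm_real, Real.norm_of_nonneg
        (by positivity), inv_mul_le_iff₀ hs0, mul_comm] at this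
      exact this
    · rw [ev_eq, map_smul, smul_eq_mul, norm_mul, Complex.norm_real, Real.norm_of_nonneg
        (by positivity), inv_mul_le_iff₀ hs0]
      linarith [hr t]
  have ht : Tendsto (fun s => nrm A f * s) (𝓝[>] r) (𝓝 (nrm A f * r)) :=
    ((by fun_prop : Continuous fun s => nrm A f * s).tendsto r).mono_left nhdsWithin_le_nhds
  exact ge_of_tendsto ht (eventually_nhdsWithin_of_forall key)

/-- function attached to a real linear functional -/
noncomputable def ofR (ψ : (ℝ →₀ ℂ) →ₗ[ℝ] ℝ) (l : ℝ) : ℂ :=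
  ⟨ψ (Finsupp.single l 1), -ψ (Finsupp.single l Complex.I)⟩

lemma ofR_re (ψ : (ℝ →₀ ℂ) →ₗ[ℝ] ℝ) (c : ℝ →₀ ℂ) : (PL (ofR ψ) c).re = ψ c := by
  induction c using Finsupp.induction_linear with
  | zero => simp
  | add a b ha hb => rw [map_add, map_add, Complex.add_re, ha, hb]
  | single l a =>
    have e : Finsupp.single l a =
        a.re • Finsupp.single l (1 : ℂ) + a.im • Finsupp.single l Complex.I := by
      rw [Finsupp.smul_single, Finsupp.smul_single, ← Finsupp.single_add]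
      congr 1
      simp
    rw [PL_single, e, map_add, map_smul, map_smul]
    simp [ofR]

lemma ev_le (t : ℝ) (y : ℝ →₀ ℂ) : ‖PL (ex t) y‖ ≤ ∑ l ∈ y.support, ‖y l‖ := by
  rw [PL_apply]
  refine (norm_sum_le _ _).trans (le_of_eq (Finset.sum_congr rfl fun l _ => ?_))
  rw [norm_mul, norm_ex, mul_one]

lemma extend2 {A : ENNReal} {f : ℝ → ℂ} (hf : InR A f) :
    ∃ G F : ℝ → ℂ, (∀ l ∈ Iv A, F l = f l) ∧ (G 0).re = nrm A f ∧
      ∀ a b, (∀ t, ‖PL (ex t) b‖ ≤ (PL (ex t) a).re) → (PL F b).re ≤ (PL G a).re := by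
  let s : PointedCone ℝ ((ℝ →₀ ℂ) × (ℝ →₀ ℂ)) :=
    { carrier := {c | ∀ t, ‖PL (ex t) c.2‖ ≤ (PL (ex t) c.1).re}
      add_mem' := fun {a b} ha hb t => by
        rw [Prod.fst_add, Prod.snd_add, map_add, map_add, Complex.add_re]
        exact (norm_add_le _ _).trans (add_le_add (ha t) (hb t))
      zero_mem' := fun t => by simp
      smul_mem' := fun r c hc t => by
        change ‖PL (ex t) ((r : ℝ) • c.2)‖ ≤ (PL (ex t) ((r : ℝ) • c.1)).re
        rw [← Complex.coe_smul, ← Complex.coe_smul, map_smul, map_smul, smul_eq_mul, smul_eq_mul,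
          Complex.re_ofReal_mul, norm_mul, Complex.norm_real, Real.norm_of_nonneg r.2]
        exact mul_le_mul_of_nonneg_left (hc t) r.2 }
  let f1 : (ℝ →₀ ℂ) →ₗ[ℝ] ℝ := Complex.reLm.comp ((PL fun _ => (nrm A f : ℂ)).restrictScalars ℝ)
  let f2 : (ℝ →₀ ℂ) →ₗ[ℝ] ℝ := Complex.reLm.comp ((PL f).restrictScalars ℝ)
  let D : Submodule ℝ ((ℝ →₀ ℂ) × (ℝ →₀ ℂ)) :=
    ((Finsupp.supported ℂ ℂ {0}).restrictScalars ℝ).prod ((AP A).restrictScalars ℝ)
  have hsing : ∀ a : ℂ, Finsupp.single (0 : ℝ) a ∈ Finsupp.supported ℂ ℂ ({0} : Set ℝ) :=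
    fun a => Finsupp.single_mem_supported _ _ rfl
  obtain ⟨ψ, h1, h2⟩ := riesz_extension s ((f1.coprod (-f2)).toPMap D)
    (fun x hx => by
      obtain ⟨⟨a, b⟩, ha, hb⟩ := x
      have ha' : a = Finsupp.single 0 (a 0) :=
        Finsupp.support_subset_singleton.1 fun l hl => Finset.mem_singleton.2 (ha hl)
      change 0 ≤ (PL (fun _ => (nrm A f : ℂ)) a).re + -(PL f b).re
      have := bound hf hb (r := (a 0).re) fun t => by
        have := hx t
        change ‖PL (ex t) b‖ ≤ (PL (ex t) a).re at this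
        rwa [ha', PL_single, ex_zero, mul_one] at this
      rw [ha', PL_single, Complex.re_mul_ofReal]
      linarith [Complex.re_le_norm (PL f b)])
    (fun y => ⟨⟨(Finsupp.single 0 ((∑ l ∈ y.1.support, ‖y.1 l‖ + ∑ l ∈ y.2.support, ‖y.2 l‖ : ℝ) : ℂ),
      0), hsing _, Submodule.zero_mem _⟩, fun t => by
        simp only [Prod.fst_add, Prod.snd_add, zero_add]
        rw [map_add, PL_single, ex_zero, mul_one, Complex.add_re, Complex.ofReal_re]
        linarith [(abs_le.1 ((Complex.abs_re_le_norm _).trans (ev_le t y.1))).1, ev_le t y.2]⟩)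
  refine ⟨ofR (ψ.comp (LinearMap.inl ℝ _ _)), ofR (-ψ.comp (LinearMap.inr ℝ _ _)), fun l hl => ?_,
    ?_, fun a b hab => ?_⟩
  · have a1 := h1 ⟨(0, Finsupp.single l 1), Submodule.zero_mem _,
      Finsupp.single_mem_supported _ _ hl⟩
    have a2 := h1 ⟨(0, Finsupp.single l Complex.I), Submodule.zero_mem _,
      Finsupp.single_mem_supported _ _ hl⟩
    change ψ (0, Finsupp.single l 1) = (PL (fun _ => (nrm A f : ℂ)) 0).re + -(PL f (Finsupp.single l 1)).re at a1
    change ψ (0, Finsupp.single l Complex.I) =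
      (PL (fun _ => (nrm A f : ℂ)) 0).re + -(PL f (Finsupp.single l Complex.I)).re at a2
    apply Complex.ext
    · simp [ofR, a1]
    · simp [ofR, a2]
  · have a1 := h1 ⟨(Finsupp.single 0 1, 0), hsing _, Submodule.zero_mem _⟩
    change ψ (Finsupp.single 0 1, 0) = (PL (fun _ => (nrm A f : ℂ)) (Finsupp.single 0 1)).re + -(PL f 0).re at a1
    simp [ofR, a1]
  · rw [ofR_re, ofR_re]
    have := h2 (a, b) hab
    have e : ψ (a, b) = ψ (a, 0) + ψ (0, b) := by rw [← map_add]; simp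
    simp only [LinearMap.neg_apply, LinearMap.comp_apply, LinearMap.inl_apply, LinearMap.inr_apply]
    linarith

lemma sq_aux2 {p w : ℂ} {k : ℝ} (hp : ‖p‖ ≤ 1) (hw : ‖w‖ = 1) :
    ‖p + k * w‖ ≤ 1 + k ^ 2 / 2 + k * (conj p * w).re := by
  have h1 : ‖p‖ ^ 2 ≤ 1 := pow_le_one₀ (norm_nonneg _) hp
  have h2 : ‖w‖ ^ 2 = 1 := by rw [hw, one_pow]
  have h3 : ‖p + k * w‖ ^ 2 ≤ 1 + k ^ 2 + 2 * k * (conj p * w).re := by
    rw [Complex.sq_norm, Complex.normSq_apply] at *
    simp only [Complex.add_re, Complex.add_im, Complex.mul_re, Complex.mul_im, Complex.ofReal_re,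
      Complex.ofReal_im, Complex.conj_re, Complex.conj_im]
    have : k ^ 2 * (w.re * w.re + w.im * w.im) = k ^ 2 := by rw [h2, mul_one]
    nlinarith
  nlinarith [sq_nonneg (‖p + k * w‖ - 1)]

/-- the conjugate coefficient vector -/
noncomputable def cj (c : ℝ →₀ ℂ) : ℝ →₀ ℂ := ∑ l ∈ c.support, Finsupp.single (-l) (conj (c l))

lemma PL_cj (g : ℝ → ℂ) (c : ℝ →₀ ℂ) : PL g (cj c) = ∑ l ∈ c.support, conj (c l) * g (-l) := by
  simp only [cj, map_sum, PL_single]

lemma ev_cj (t : ℝ) (c : ℝ →₀ ℂ) : PL (ex t) (cj c) = conj (PL (ex t) c) := by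
  rw [PL_cj, PL_apply, map_sum]
  exact Finset.sum_congr rfl fun l _ => by rw [map_mul, conj_ex]

lemma ev_shift (t x : ℝ) (c : ℝ →₀ ℂ) : PL (fun l => ex t (l + x)) c = PL (ex t) c * ex t x := by
  simp only [PL_apply, ex_add, Finset.sum_mul, mul_assoc]

theorem master {A : ENNReal} {f : ℝ → ℂ} (hf : InR A f)
    (hm : AEMeasurable f (volume.restrict (Iv A))) :
    ∃ G F : ℝ → ℂ, AEMeasurable G ∧ AEMeasurable F ∧ (∀ l ∈ Iv A, F l = f l) ∧
      (G 0).re = nrm A f ∧
      ∀ a b, (∀ t, ‖PL (ex t) b‖ ≤ (PL (ex t) a).re) → ‖PL F b‖ ≤ (PL G a).re := by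
  obtain ⟨G, F, hF, hG0, hk⟩ := extend2 hf
  set M := nrm A f with hM
  have hM0 : 0 ≤ M := nrm_nonneg hf
  have hI : MeasurableSet (Iv A) := (isOpen_Iv A).measurableSet
  have hc : ∀ s : ℝ, 0 < s → ∃ c ∈ AP A, (∀ t, ‖PL (ex t) c‖ ≤ 1) ∧ M - s ^ 2 < (PL F c).re := by
    intro s hs0
    obtain ⟨_, ⟨c0, hc0, hc1, rfl⟩, hlt⟩ := exists_lt_of_lt_csSup (vals_ne A f)
      (show M - s ^ 2 < sSup (vals A f) by
        change _ < M
        linarith [sq_pos_of_pos hs0])
    obtain ⟨u, hu1, hu⟩ := Complex.exists_norm_eq_mul_self (Phi f c0)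
    refine ⟨u • c0, Submodule.smul_mem _ _ hc0, fun t => ?_, ?_⟩
    · rw [map_smul, smul_eq_mul, norm_mul, hu1, one_mul]
      exact hc1 t
    · have e : PL F c0 = PL f c0 := by
        rw [PL_apply, PL_apply]
        exact Finset.sum_congr rfl fun l hl => by rw [hF l (hc0 l hl)]
      rw [map_smul, smul_eq_mul, e, ← Phi_eq, ← hu]
      exact hlt
  have fin : ∀ s z : ℝ, 0 < s → s * z ≤ s ^ 2 + M * s ^ 2 / 2 → z ≤ s * (1 + M / 2) := by
    intro s z hs h
    refine le_of_mul_le_mul_left ?_ hs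
    linarith
  have k1 : ∀ s : ℝ, 0 < s → ∀ c, (∀ t, ‖PL (ex t) c‖ ≤ 1) → M - s ^ 2 < (PL F c).re → ∀ x,
      ‖G x - PL (fun l => F (l + x)) c‖ ≤ s * (1 + M / 2) := by
    intro s hs c h1 h2 x
    obtain ⟨v, hv1, hv⟩ := Complex.exists_norm_eq_mul_self (G x - PL (fun l => F (l + x)) c)
    have := hk (Finsupp.single 0 ((1 + s ^ 2 / 2 : ℝ) : ℂ) - (s : ℂ) • v • Finsupp.single x 1)
      (c - (s : ℂ) • v • Finsupp.mapDomain (· + x) c) fun t => ?_
    · simp only [map_sub, map_smul, PL_single, PL_shift, one_mul, smul_eq_mul,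
        Complex.sub_re, Complex.re_ofReal_mul, hG0] at this
      have e := congrArg Complex.re hv
      rw [mul_sub, Complex.sub_re, Complex.ofReal_re] at e
      refine fin s _ hs ?_
      rw [e]
      linarith
    · simp only [map_sub, map_smul, PL_single, PL_shift, one_mul, smul_eq_mul, ev_shift, ex_zero,
        mul_one, Complex.sub_re, Complex.re_ofReal_mul, Complex.ofReal_re]
      have a1 := sq_aux2 (p := 1) (w := v * ex t x) (k := -s) (by simp)
        (by rw [norm_mul, hv1, norm_ex, mul_one])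
      have e : PL (ex t) c - s * (v * (PL (ex t) c * ex t x)) =
          PL (ex t) c * (1 + ((-s : ℝ) : ℂ) * (v * ex t x)) := by
        push_cast
        ring
      rw [e, norm_mul]
      refine (mul_le_of_le_one_left (norm_nonneg _) (h1 t)).trans (a1.trans (le_of_eq ?_))
      rw [map_one, one_mul]
      ring
  have k2 : ∀ s : ℝ, 0 < s → ∀ c, (∀ t, ‖PL (ex t) c‖ ≤ 1) → M - s ^ 2 < (PL F c).re → ∀ x,
      ‖F x - PL (fun l => G (l + x)) (cj c)‖ ≤ s * (1 + M / 2) := by
    intro s hs c h1 h2 x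
    obtain ⟨v, hv1, hv⟩ := Complex.exists_norm_eq_mul_self (F x - PL (fun l => G (l + x)) (cj c))
    have := hk (Finsupp.single 0 ((1 + s ^ 2 / 2 : ℝ) : ℂ) +
      (s : ℂ) • v • Finsupp.mapDomain (· + x) (cj c))
      (c + (s : ℂ) • v • Finsupp.single x 1) fun t => ?_
    · simp only [map_add, map_smul, PL_single, PL_shift, one_mul, smul_eq_mul,
        Complex.add_re, Complex.re_ofReal_mul, hG0] at this
      have e := congrArg Complex.re hv
      rw [mul_sub, Complex.sub_re, Complex.ofReal_re] at e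
      refine fin s _ hs ?_
      rw [e]
      linarith
    · simp only [map_add, map_smul, PL_single, PL_shift, one_mul, smul_eq_mul, ev_shift, ex_zero,
        mul_one, Complex.add_re, Complex.re_ofReal_mul, Complex.ofReal_re, ev_cj]
      have a1 := sq_aux2 (w := v * ex t x) (k := s) (h1 t)
        (by rw [norm_mul, hv1, norm_ex, mul_one])
      refine a1.trans (le_of_eq ?_)
      rw [mul_left_comm]
  have hG : AEMeasurable G := by
    refine pd_meas (fun c h => by simpa using hk c 0 (by simpa using h)) fun ε hε => ?_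
    obtain ⟨c, hcA, hcn, hre⟩ := hc (ε / (1 + M / 2)) (by positivity)
    have hev : ∀ᶠ x in 𝓝 (0 : ℝ), ∀ l ∈ c.support, l + x ∈ Iv A := by
      refine (Filter.eventually_all_finset _).2 fun l hl => ?_
      refine (by fun_prop : Continuous fun x : ℝ => l + x).continuousAt.eventually
        ((isOpen_Iv A).mem_nhds ?_)
      simpa using hcA hl
    obtain ⟨δ, hδ, hball⟩ := Metric.eventually_nhds_iff.1 hev
    refine ⟨δ, hδ, fun x => ∑ l ∈ c.support, c l * hm.mk f (l + x),
      Finset.measurable_sum _ fun l _ =>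
        (hm.measurable_mk.comp (measurable_const_add l)).const_mul _, ?_⟩
    have h1 : ∀ᵐ y, y ∈ Iv A → f y = hm.mk f y := (ae_restrict_iff' hI).1 hm.ae_eq_mk
    have h2 : ∀ᵐ x, ∀ l ∈ c.support, l + x ∈ Iv A → f (l + x) = hm.mk f (l + x) :=
      (Filter.eventually_all_finset _).2 fun l _ =>
        (measurePreserving_add_left volume l).quasiMeasurePreserving.ae h1
    filter_upwards [h2] with x hx hxδ
    have hxc := hball (y := x) (by simpa using hxδ)
    have b1 := k1 _ (by positivity) c hcn hre x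
    rw [div_mul_cancel₀ _ (by positivity), PL_apply] at b1
    convert b1 using 3
    exact Finset.sum_congr rfl fun l hl => by rw [← hx l hl (hxc l hl), hF _ (hxc l hl)]
  have hFm : AEMeasurable F := by
    choose c hcA hcn hre using fun n : ℕ => hc (1 / ((n : ℝ) + 1)) (by positivity)
    refine aemeasurable_of_tendsto_metrizable_ae' (f := fun n x => PL (fun l => G (l + x)) (cj (c n)))
      (fun n => ?_) (Eventually.of_forall fun x => ?_)
    · simp only [PL_apply]
      exact Finset.aemeasurable_fun_sum _ fun l _ =>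
        (hG.comp_quasiMeasurePreserving
          (measurePreserving_add_left volume l).quasiMeasurePreserving).const_mul _
    · rw [tendsto_iff_norm_sub_tendsto_zero]
      refine squeeze_zero (fun _ => norm_nonneg _) (fun n => ?_)
        (g := fun n : ℕ => 1 / ((n : ℝ) + 1) * (1 + M / 2)) ?_
      · rw [norm_sub_rev]
        exact k2 _ (by positivity) _ (hcn n) (hre n) x
      · simpa using (tendsto_one_div_add_atTop_nhds_zero_nat (𝕜 := ℝ)).mul_const (1 + M / 2)
  refine ⟨G, F, hG, hFm, hF, hG0, fun a b hab => ?_⟩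
  obtain ⟨v, hv1, hv⟩ := Complex.exists_norm_eq_mul_self (PL F b)
  have := hk a (v • b) fun t => by
    rw [map_smul, smul_eq_mul, norm_mul, hv1, one_mul]
    exact hab t
  rwa [map_smul, smul_eq_mul, ← hv, Complex.ofReal_re] at this

lemma PL_congr {A : ENNReal} {f g : ℝ → ℂ} (h : ∀ l ∈ Iv A, f l = g l) {c : ℝ →₀ ℂ}
    (hc : c ∈ AP A) : PL f c = PL g c := by
  rw [PL_apply, PL_apply]
  exact Finset.sum_congr rfl fun l hl => by rw [h l (hc hl)]

theorem ext_norm {A : ENNReal} {f : ℝ → ℂ} (hf : InR A f)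
    (hm : AEMeasurable f (volume.restrict (Iv A))) :
    ∃ F : ℝ → ℂ, (∀ l ∈ Iv A, F l = f l) ∧ AEMeasurable F ∧ InR ⊤ F ∧ nrm ⊤ F = nrm A f := by
  obtain ⟨G, F, -, hF, he, hG0, hk⟩ := master hf hm
  have hb : ∀ r ∈ vals ⊤ F, r ≤ nrm A f := by
    rintro _ ⟨c, -, hc, rfl⟩
    have := hk (Finsupp.single 0 1) c fun t => by simpa [ex_zero, ev_eq] using hc t
    simpa [hG0, Phi_eq] using this
  refine ⟨F, he, hF, ⟨_, hb⟩, le_antisymm (csSup_le (vals_ne _ _) hb) ?_⟩
  refine csSup_le_csSup ⟨_, hb⟩ (vals_ne _ _) ?_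
  rintro _ ⟨c, hc, h1, rfl⟩
  exact ⟨c, fun l _ => by simp [Iv], h1, by rw [Phi_eq, Phi_eq, PL_congr he hc]⟩

theorem jordan {A : ENNReal} {f : ℝ → ℂ} (hf : InR A f)
    (hh : ∀ l ∈ Iv A, f (-l) = conj (f l)) (hm : AEMeasurable f (volume.restrict (Iv A))) :
    ∃ fp fm : ℝ → ℂ, InP A fp ∧ InP A fm ∧ AEMeasurable fp (volume.restrict (Iv A)) ∧
      AEMeasurable fm (volume.restrict (Iv A)) ∧ (∀ l ∈ Iv A, f l = fp l - fm l) ∧
      (nrm A f : ℂ) = fp 0 + fm 0 := by
  obtain ⟨G, F, hG, hF, he, hG0, hk⟩ := master hf hm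
  have hpos : ∀ c, (∀ t, 0 ≤ (PL (ex t) c).re) → 0 ≤ (PL G c).re := fun c h => by
    simpa using hk c 0 (by simpa using h)
  have hreal : ∀ c, (∀ t, (PL (ex t) c).im = 0) → (PL G c).im = 0 := by
    intro c hc
    have a1 := hpos (Complex.I • c) fun t => by simp [hc t]
    have a2 := hpos ((-Complex.I) • c) fun t => by simp [hc t]
    simp only [map_smul, smul_eq_mul, neg_mul, Complex.neg_re, Complex.I_mul_re] at a1 a2
    linarith
  have hGb : ∀ c, (∀ t, ‖PL (ex t) c‖ ≤ 1) → ‖PL G c‖ ≤ nrm A f := by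
    intro c hc
    obtain ⟨v, hv1, hv⟩ := Complex.exists_norm_eq_mul_self (PL G c)
    have := hpos (Finsupp.single 0 1 - v • c) fun t => by
      rw [map_sub, map_smul, PL_single, ex_zero, smul_eq_mul, Complex.sub_re]
      have : ‖v * PL (ex t) c‖ ≤ 1 := by rw [norm_mul, hv1, one_mul]; exact hc t
      simpa using (Complex.re_le_norm _).trans this
    rw [map_sub, map_smul, PL_single, smul_eq_mul, ← hv, one_mul, Complex.sub_re, hG0,
      Complex.ofReal_re] at this
    linarith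
  have hFb : ∀ c, (∀ t, ‖PL (ex t) c‖ ≤ 1) → ‖PL F c‖ ≤ nrm A f := by
    intro c hc
    have := hk (Finsupp.single 0 1) c fun t => by simpa [ex_zero] using hc t
    simpa [hG0] using this
  have hFreal : ∀ c ∈ AP A, (∀ t, (PL (ex t) c).im = 0) → (PL F c).im = 0 := by
    intro c hcA hc
    have a1 := hk 0 (c - cj c) fun t => by
      rw [map_sub, ev_cj, Complex.conj_eq_iff_im.2 (hc t)]
      simp
    have a2 : PL F (cj c) = conj (PL F c) := by
      rw [PL_cj, PL_apply, map_sum]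
      refine Finset.sum_congr rfl fun l hl => ?_
      rw [map_mul, he _ (neg_mem_Iv (hcA hl)), he _ (hcA hl), hh _ (hcA hl)]
    rw [map_sub, a2, map_zero, Complex.zero_re, norm_le_zero_iff, sub_eq_zero] at a1
    exact Complex.conj_eq_iff_im.1 a1.symm
  have main : ∀ e : ℝ, |e| = 1 → InP A fun l => (G l + e * F l) / 2 := by
    intro e he1
    have hP : ∀ c, Phi (fun l => (G l + e * F l) / 2) c = (PL G c + e * PL F c) / 2 := by
      intro c
      simp only [Phi_eq, PL_apply, Finset.mul_sum, ← Finset.sum_add_distrib, Finset.sum_div]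
      exact Finset.sum_congr rfl fun l _ => by ring
    have hn : ∀ c, ‖(e : ℂ) * PL F c‖ = ‖PL F c‖ := fun c => by
      rw [norm_mul, Complex.norm_real, Real.norm_eq_abs, he1, one_mul]
    refine ⟨⟨nrm A f, ?_⟩, fun c hcA hc => ?_⟩
    · rintro _ ⟨c, -, hc, rfl⟩
      rw [hP, norm_div]
      have := norm_add_le (PL G c) (e * PL F c)
      rw [hn] at this
      have b1 := hGb c hc
      have b2 := hFb c hc
      simp only [Complex.norm_ofNat]
      linarith
    · simp only [ev_eq, Complex.le_def] at hc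
      have b1 := hreal c fun t => (hc t).2.symm
      have b2 := hFreal c hcA fun t => (hc t).2.symm
      have b3 := hk c c fun t => by
        have := Complex.norm_le_abs_re_add_abs_im (PL (ex t) c)
        rwa [← (hc t).2, Complex.zero_im, abs_zero, add_zero, abs_of_nonneg (hc t).1] at this
      have b4 := (abs_le.1 ((Complex.abs_re_le_norm _).trans (hn c).le)).1
      rw [hP, Complex.le_def]
      constructor
      · rw [Complex.div_ofNat_re, Complex.add_re, Complex.zero_re]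
        linarith
      · simp [b1, b2]
  refine ⟨_, _, main 1 (by simp), main (-1) (by simp),
    ((hG.add (hF.const_mul _)).div_const _).restrict,
    ((hG.add (hF.const_mul _)).div_const _).restrict, fun l hl => ?_, ?_⟩
  · rw [← he l hl]
    push_cast
    ring
  · have b1 := hreal (Finsupp.single 0 1) fun t => by simp [ex_zero]
    rw [PL_single, one_mul] at b1
    have : G 0 = nrm A f := Complex.ext (by simpa using hG0) (by simpa using b1)
    rw [← this]
    push_cast
    ring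

end Pool.Agent.H.MP_a2f955_an
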